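import Pool.Agent.TH783.Pol.Str
import Pool.Agent.W889.FO.Cpl

set_option autoImplicit false

/-! Structures on the natural numbers for a countable relational language, coded by sequences of
relations with fixed arities. -/

namespace Pool.Agent.V11227.VB

open FirstOrder FirstOrder.Language Set
open Pool.Agent.H533R2.VO (RS RIso Dich)

/-- the arities -/
def ar0 (i : ℕ) : ℕ := (Nat.unpair i).2

variable {L : FirstOrder.Language.{0, 0}}

/-- the index of a relation symbol -/
def ix (e : (Σ n, L.Relations n) → ℕ) {n : ℕ} (R : L.Relations n) : ℕ := Nat.pair (e ⟨n, R⟩) n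

theorem ar_ix (e : (Σ n, L.Relations n) → ℕ) {n : ℕ} (R : L.Relations n) : ar0 (ix e R) = n := by
  unfold ar0 ix
  rw [Nat.unpair_pair]

theorem ix_inj {e : (Σ n, L.Relations n) → ℕ} (he : Function.Injective e) {m n : ℕ}
    {R' : L.Relations m} {R : L.Relations n} (h : ix e R' = ix e R) :
    (⟨m, R'⟩ : Σ n, L.Relations n) = ⟨n, R⟩ := by
  unfold ix at h
  rw [Nat.pair_eq_pair] at h
  exact he h.1

/-- the structure with a given code -/
@[reducible] def dec [L.IsRelational] (e : (Σ n, L.Relations n) → ℕ) (x : RS ar0) :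
    L.Structure ℕ where
  funMap := fun {_} f => isEmptyElim f
  RelMap := fun {_} R t => x (ix e R) (fun k => t (Fin.cast (ar_ix e R) k)) = true

open Classical in
/-- the code of a structure -/
noncomputable def enc (e : (Σ n, L.Relations n) → ℕ) (S : L.Structure ℕ) : RS ar0 :=
  fun i t => decide (∃ R : L.Relations (ar0 i), ix e R = i ∧ S.RelMap R t)

theorem rel_cast (S : L.Structure ℕ) {m n : ℕ} (h : m = n) (R' : L.Relations m)
    (R : L.Relations n) (hR : (⟨m, R'⟩ : Σ n, L.Relations n) = ⟨n, R⟩) (t : Fin n → ℕ) :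
    S.RelMap R' (fun k => t (Fin.cast h k)) ↔ S.RelMap R t := by
  subst h
  rw [Sigma.mk.injEq] at hR
  rw [eq_of_heq hR.2]
  exact Iff.rfl

theorem exists_rel {m n : ℕ} (h : m = n) (R : L.Relations n) :
    ∃ R' : L.Relations m, (⟨m, R'⟩ : Σ n, L.Relations n) = ⟨n, R⟩ := by
  subst h
  exact ⟨R, rfl⟩

theorem ix_congr (e : (Σ n, L.Relations n) → ℕ) {m n : ℕ} {R' : L.Relations m}
    {R : L.Relations n} (h : (⟨m, R'⟩ : Σ n, L.Relations n) = ⟨n, R⟩) : ix e R' = ix e R := by
  unfold ix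
  rw [h]
  rw [Sigma.mk.injEq] at h
  rw [h.1]

theorem enc_iff {e : (Σ n, L.Relations n) → ℕ} (he : Function.Injective e) (S : L.Structure ℕ)
    {n : ℕ} (R : L.Relations n) (t : Fin n → ℕ) :
    enc e S (ix e R) (fun k => t (Fin.cast (ar_ix e R) k)) = true ↔ S.RelMap R t := by
  classical
  unfold enc
  rw [decide_eq_true_iff]
  constructor
  · rintro ⟨R', h1, h2⟩
    exact (rel_cast S (ar_ix e R) R' R (ix_inj he h1) t).1 h2
  · intro h
    obtain ⟨R', hR'⟩ := exists_rel (ar_ix e R) R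
    exact ⟨R', ix_congr e hR', (rel_cast S (ar_ix e R) R' R hR' t).2 h⟩

theorem dec_enc [L.IsRelational] {e : (Σ n, L.Relations n) → ℕ} (he : Function.Injective e)
    (S : L.Structure ℕ) : dec e (enc e S) = S := by
  cases S with
  | mk f r =>
    unfold dec
    congr 1
    · funext n g
      exact isEmptyElim g
    · funext n R t
      exact propext (enc_iff he ⟨f, r⟩ R t)

/-- codes -/
def Nz (e : (Σ n, L.Relations n) → ℕ) (x : RS ar0) : Prop :=
  ∀ i, (∀ (n : ℕ) (R : L.Relations n), ix e R ≠ i) → ∀ t, x i t = false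

theorem nz_enc (e : (Σ n, L.Relations n) → ℕ) (S : L.Structure ℕ) : Nz e (enc e S) := by
  classical
  intro i hi t
  unfold enc
  rw [decide_eq_false_iff_not]
  rintro ⟨R, h1, -⟩
  exact hi _ R h1

theorem enc_dec [L.IsRelational] {e : (Σ n, L.Relations n) → ℕ} {x : RS ar0}
    (hx : Nz e x) : enc e (dec e x) = x := by
  classical
  funext i t
  by_cases hi : ∃ (n : ℕ) (R : L.Relations n), ix e R = i
  · obtain ⟨n, R, rfl⟩ := hi
    rw [Bool.eq_iff_iff]
    unfold enc
    rw [decide_eq_true_iff]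
    have key : ∀ (m : ℕ) (R' : L.Relations m) (i : ℕ) (hi : ix e R' = i) (h1 : ar0 i = m)
        (t : Fin (ar0 i) → ℕ), (dec e x).RelMap R' (fun k => t (Fin.cast h1.symm k)) ↔
        x i t = true := by
      intro m R' i hi h1 t
      subst hi
      exact Iff.rfl
    constructor
    · rintro ⟨R', h1, h2⟩
      exact (key _ R' _ h1 rfl t).1 h2
    · intro h
      obtain ⟨R', hR'⟩ := exists_rel (ar_ix e R) R
      exact ⟨R', ix_congr e hR', (key _ R' _ (ix_congr e hR') rfl t).2 h⟩
  · push Not at hi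
    rw [nz_enc e _ i hi, hx i hi]

/-- the sigma-algebra on the set of structures -/
@[reducible] def borelS (L : FirstOrder.Language.{0, 0}) : MeasurableSpace (L.Structure ℕ) :=
  MeasurableSpace.generateFrom
    {U | ∃ (n : ℕ) (R : L.Relations n) (t : Fin n → ℕ), U = {S : L.Structure ℕ | S.RelMap R t}}

theorem meas_dec [L.IsRelational] (e : (Σ n, L.Relations n) → ℕ) :
    @Measurable _ _ _ (borelS L) (dec (L := L) e) := by
  refine @measurable_generateFrom _ _ _ _ _ ?_
  rintro U ⟨n, R, t, rfl⟩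
  have h : Measurable fun x : RS ar0 => x (ix e R) (fun k => t (Fin.cast (ar_ix e R) k)) :=
    (measurable_pi_apply _).comp (measurable_pi_apply (ix e R))
  exact h (measurableSet_singleton true)

theorem meas_nz [Countable (Σ n, L.Relations n)] (e : (Σ n, L.Relations n) → ℕ) :
    MeasurableSet {x : RS ar0 | Nz e x} := by
  have h1 : {x : RS ar0 | Nz e x} = ⋂ i : ℕ, ⋂ t : Fin (ar0 i) → ℕ,
      {x : RS ar0 | (∀ (n : ℕ) (R : L.Relations n), ix e R ≠ i) → x i t = false} := by
    ext x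
    simp only [mem_ofPred_eq, mem_iInter, Nz]
    exact ⟨fun h i t h' => h i h' t, fun h i h' t => h i t h'⟩
  rw [h1]
  refine MeasurableSet.iInter fun i => MeasurableSet.iInter fun t => ?_
  by_cases h2 : ∀ (n : ℕ) (R : L.Relations n), ix e R ≠ i
  · have h : Measurable fun x : RS ar0 => x i t :=
      (measurable_pi_apply _).comp (measurable_pi_apply i)
    refine (congrArg MeasurableSet (Set.ext fun x => ?_)).mp (h (measurableSet_singleton false))
    exact ⟨fun h3 _ => h3, fun h3 => h3 h2⟩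
  · refine (congrArg MeasurableSet (Set.ext fun x => ?_)).mp MeasurableSet.univ
    exact ⟨fun _ h3 => absurd h3 h2, fun _ => trivial⟩

theorem equiv_dec [L.IsRelational] (e : (Σ n, L.Relations n) → ℕ) {x y : RS ar0}
    (h : RIso x y) : Nonempty (@FirstOrder.Language.Equiv L ℕ ℕ (dec e x) (dec e y)) := by
  obtain ⟨σ, hσ⟩ := h
  refine ⟨@FirstOrder.Language.Equiv.mk L ℕ ℕ (dec e x) (dec e y) σ (fun f => isEmptyElim f)
    fun {n} R t => ?_⟩
  show y (ix e R) (fun k => σ (t (Fin.cast (ar_ix e R) k))) = true ↔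
    x (ix e R) (fun k => t (Fin.cast (ar_ix e R) k)) = true
  rw [← hσ]
  exact Iff.rfl

theorem riso_of [L.IsRelational] {e : (Σ n, L.Relations n) → ℕ} {x y : RS ar0}
    (hx : Nz e x) (hy : Nz e y)
    (h : Nonempty (@FirstOrder.Language.Equiv L ℕ ℕ (dec e x) (dec e y))) : RIso x y := by
  obtain ⟨g⟩ := h
  let σ : Equiv.Perm ℕ := @FirstOrder.Language.Equiv.toEquiv L ℕ ℕ (dec e x) (dec e y) g
  have hg : ∀ (n : ℕ) (R : L.Relations n) (t : Fin n → ℕ),
      (dec e y).RelMap R (fun k => σ (t k)) ↔ (dec e x).RelMap R t := fun n R t =>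
    @FirstOrder.Language.Equiv.map_rel' L ℕ ℕ (dec e x) (dec e y) g n R t
  refine ⟨σ, fun i v => ?_⟩
  by_cases hi : ∃ (n : ℕ) (R : L.Relations n), ix e R = i
  · obtain ⟨n, R, hR⟩ := hi
    have key : ∀ (i : ℕ) (hi : ix e R = i) (h1 : n = ar0 i) (v : Fin (ar0 i) → ℕ) (z : RS ar0),
        (dec e z).RelMap R (fun k => v (Fin.cast h1 k)) ↔ z i v = true := by
      intro i hi h1 v z
      subst hi
      exact Iff.rfl
    have h1 : n = ar0 i := by rw [← hR, ar_ix]
    rw [Bool.eq_iff_iff, ← key i hR h1, ← key i hR h1]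
    exact hg n R _
  · push Not at hi
    rw [hx i hi, hy i hi]

/-- transfer of the dichotomy -/
theorem transfer [L.IsRelational] {e : (Σ n, L.Relations n) → ℕ} (he : Function.Injective e)
    {B : Set (L.Structure ℕ)}
    (hd : Dich {x : RS ar0 | Nz e x ∧ dec e x ∈ B}) :
    (∃ g : ℕ → L.Structure ℕ, ∀ S ∈ B, ∃ n : ℕ,
      Nonempty (@FirstOrder.Language.Equiv L ℕ ℕ S (g n))) ∨
    (∃ f : (ℕ → Bool) → L.Structure ℕ, (∀ x, f x ∈ B) ∧
      (∀ x y, Nonempty (@FirstOrder.Language.Equiv L ℕ ℕ (f x) (f y)) → x = y) ∧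
      (∀ (n : ℕ) (R : L.Relations n) (a : Fin n → ℕ),
          IsClopen {x : ℕ → Bool | @FirstOrder.Language.Structure.RelMap L ℕ (f x) n R a})) := by
  rcases hd with ⟨f, hf⟩ | ⟨g, hg1, hg2, hg3⟩
  · left
    refine ⟨fun n => dec e (f n), fun S hS => ?_⟩
    obtain ⟨n, hn⟩ := hf (enc e S) ⟨nz_enc e S, by rw [dec_enc he]; exact hS⟩
    refine ⟨n, ?_⟩
    obtain ⟨g⟩ := equiv_dec e hn
    have h1 : Nonempty (@FirstOrder.Language.Equiv L ℕ ℕ (dec e (enc e S)) (dec e (f n))) :=
      ⟨@FirstOrder.Language.Equiv.symm L ℕ ℕ (dec e (f n)) (dec e (enc e S)) g⟩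
    rwa [dec_enc he] at h1
  · right
    refine ⟨fun c => dec e (g c), fun c => (hg2 c).2, fun c d h => ?_, fun n R a => ?_⟩
    · exact hg3 c d (riso_of (hg2 c).1 (hg2 d).1 h)
    · have h1 : Continuous fun c => g c (ix e R) (fun k => a (Fin.cast (ar_ix e R) k)) :=
        (continuous_apply _).comp ((continuous_apply (ix e R)).comp hg1)
      exact (isClopen_discrete {true}).preimage h1

/-- the models of a theory form a Borel set -/
theorem meas_theory [L.IsRelational] [Countable (Σ n, L.Relations n)] (T : L.Theory) :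
    @MeasurableSet _ (borelS L) {S : L.Structure ℕ | @Theory.Model L ℕ S T} := by
  let _ : MeasurableSpace (L.Structure ℕ) := borelS L
  have hs := Pool.Agent.W889.FO.countable_sentence (L := L)
  have hT : Countable T := Subtype.countable
  have hr : ∀ (n : ℕ) (R : L.Relations n) (a : Fin n → ℕ),
      Pool.Agent.W889.VC.BP (fun S : L.Structure ℕ => @Structure.RelMap L ℕ S n R a) :=
    fun n R a => MeasurableSpace.measurableSet_generateFrom ⟨n, R, a, rfl⟩
  have h1 : Pool.Agent.W889.VC.BP (fun S : L.Structure ℕ => ∀ φ : T,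
      @Sentence.Realize L ℕ S φ.1) :=
    Pool.Agent.W889.VC.BP.all fun φ => Pool.Agent.W889.FO.bp_sentence (f := fun S => S) hr φ.1
  refine (congrArg MeasurableSet (Set.ext fun S => ?_)).mp h1
  constructor
  · intro h
    exact @Theory.Model.mk L ℕ S T fun φ hφ => h ⟨φ, hφ⟩
  · intro h φ
    exact @Theory.Model.realize_of_mem L ℕ S T h φ.1 φ.2

end Pool.Agent.V11227.VB
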