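import Pool.Agent.TH686.FS.Cob
import Pool.Agent.TH686.FS.Prime
import Pool.Agent.TH686.FO.Main
import Pool.Agent.W889.VC.Coh2

set_option autoImplicit false

/-! Forbidden suborders: Vaught's conjecture for the partial orders without N, and reductions for
the other forbidden suborders. -/

namespace Pool.Agent.V11227.VB

open FirstOrder
open Pool.Agent.W889.VC
open Pool.Agent.W889.FO.StE (LG gd)
open Pool.Agent.W889.FO (Vaught VaughtF vaughtF_iff)
open Pool.Agent.W889.SD (Big Subd)
open Pool.Agent.TH686.FO Pool.Agent.TH686.FS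
open Pool.Agent.Results.MP_5df2c5_lc

/-- partial orders without suborder N -/
def NFree (y : BinStr) : Prop :=
  PO (fun u v => y u v = true) ∧ NF (fun u v => y u v = true)

theorem n_quot {y : BinStr} (hy : NFree y) :
    ModularDecomposition.PrimeQuotientsIn (fun _ => False) (up y) := by
  intro X e he hX hdis hU hprime
  obtain ⟨hp, hn⟩ := hy
  have hp' : PO (fun m n => y (e m) (e n) = true) :=
    ⟨fun u => hp.irrefl _, fun u v w => hp.trans _ _ _⟩
  have hn' : NF (fun m n => y (e m) (e n) = true) := fun a b c d => hn _ _ _ _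
  obtain ⟨Z, hZ, ⟨u, u', hu, hu', huu⟩, w, hw⟩ := not_prime hp' hn'
  have hZ1 : ∀ m m' n, Z m → Z m' → ¬ Z n → y (e m) (e n) = y (e m') (e n) := by
    intro m m' n h1 h2 h3
    rw [Bool.eq_iff_iff]
    exact (hZ m m' n h1 h2 h3).1
  have hZ2 : ∀ m m' n, Z m → Z m' → ¬ Z n → y (e n) (e m) = y (e n) (e m') := by
    intro m m' n h1 h2 h3
    rw [Bool.eq_iff_iff]
    exact (hZ m m' n h1 h2 h3).2
  rcases hprime {m | Z m} (by
    intro i t k l b hk hb hl
    have hkl : k ≠ l := fun h => hl (h ▸ hk)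
    unfold ModularDecomposition.quotient
    have c1 : ∃ j l, t j ≠ t l := ⟨k, l, fun h => hl (by rw [← h]; exact hk)⟩
    have c2 : ∃ j l', Function.update t k b j ≠ Function.update t k b l' :=
      ⟨k, l, by
        rw [Function.update_self, Function.update_of_ne hkl.symm]
        exact fun h => hl (by rw [← h]; exact hb)⟩
    rw [if_pos c1, if_pos c2]
    unfold up
    by_cases hi : i = 0
    · rw [if_pos hi, if_pos hi]
      simp only [Function.comp_apply]
      have f2 : ∀ k : Fin 2, k = 0 ∨ k = 1 := by decide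
      have hk' := f2 k
      have hl' := f2 l
      rcases hk' with rfl | rfl <;> rcases hl' with rfl | rfl
      · exact absurd rfl hkl
      · rw [Function.update_self, Function.update_of_ne hkl.symm]
        exact hZ1 b (t 0) (t 1) hb hk hl
      · rw [Function.update_self, Function.update_of_ne hkl.symm]
        exact hZ2 b (t 1) (t 0) hb hk hl
      · exact absurd rfl hkl
    · rw [if_neg hi, if_neg hi]) with h | h
  · exact huu (h hu hu')
  · exact hw (by
      have : w ∈ ({m | Z m} : Set ℕ) := by rw [h]; exact Set.mem_univ _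
      exact this)

theorem vc_n : VCof True BIso NFree := by
  refine down_bin True _ (ModularDecomposition.PrimeQuotientsIn (fun _ => False))
    (fun y hy => n_quot hy) ?_
  have h := (ModularDecomposition.result (fun _ => 2) (fun _ => by norm_num) (fun _ => False)
    (by
      intro B _ _ hF
      left
      exact ⟨fun _ => (fun _ _ => false, fun _ _ => false), fun x hx => (hF x hx).elim⟩)).2
  intro B h1 h2 h3
  rcases h B h1 h2 h3 with ⟨f, hf⟩ | ⟨g, hg, k1, k2⟩
  · exact Or.inl ⟨f, hf⟩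
  · exact Or.inr ⟨g, fun _ => hg, k1, k2⟩

/-- strict partial orders on `ℕ` without suborder `r` -/
structure RFree {V : Type} (r : V → V → Prop) (q : ℕ → ℕ → Prop) : Prop where
  irrefl : ∀ u, ¬ q u u
  trans : ∀ u v w, q u v → q v w → q u w
  free : ¬ ∃ f : V → ℕ, Function.Injective f ∧ ∀ u v, q (f u) (f v) ↔ r u v

variable {V : Type} {r : V → V → Prop}

theorem nfree_of (hr : EmbN r) {y : BinStr} (hy : RFree r (fun u v => y u v = true)) :
    NFree y := by
  refine ⟨⟨hy.irrefl, hy.trans⟩, ?_⟩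
  intro a b c d h1 h2 h3 h4 h5 h6
  obtain ⟨f, hf1, hf2⟩ := hr
  have ir := hy.irrefl
  have nq : ∀ {u v : ℕ}, ¬ Q (fun u v => y u v = true) u v →
      ¬ y u v = true ∧ ¬ y v u = true := fun h => ⟨fun h' => h (Or.inl h'), fun h' => h (Or.inr h')⟩
  have k1 : ¬ y b a = true := fun h => ir _ (hy.trans _ _ _ h1 h)
  have k2 : ¬ y b c = true := fun h => ir _ (hy.trans _ _ _ h2 h)
  have k3 : ¬ y d c = true := fun h => ir _ (hy.trans _ _ _ h3 h)
  have n1 : a ≠ b := fun h => ir b (by rw [h] at h1; exact h1)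
  have n2 : c ≠ b := fun h => ir b (by rw [h] at h2; exact h2)
  have n3 : c ≠ d := fun h => ir d (by rw [h] at h3; exact h3)
  have n4 : a ≠ c := fun h => h6 (Or.inl (by rw [h]; exact h3))
  have n5 : b ≠ d := fun h => h6 (Or.inl (by rw [← h]; exact h1))
  have n6 : a ≠ d := fun h => h4 (Or.inr (by rw [h]; exact h3))
  have hg : ∀ i j : Fin 4, (![a, b, c, d] : Fin 4 → ℕ) i = ![a, b, c, d] j → i = j := by
    intro i j hij
    fin_cases i <;> fin_cases j
    · rfl
    · exact absurd hij n1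
    · exact absurd hij n4
    · exact absurd hij n6
    · exact absurd hij n1.symm
    · rfl
    · exact absurd hij n2.symm
    · exact absurd hij n5
    · exact absurd hij n4.symm
    · exact absurd hij n2
    · rfl
    · exact absurd hij n3
    · exact absurd hij n6.symm
    · exact absurd hij n5.symm
    · exact absurd hij n3.symm
    · rfl
  have hq : ∀ i j : Fin 4, y ((![a, b, c, d] : Fin 4 → ℕ) i) (![a, b, c, d] j) = true ↔
      NN i j := by
    intro i j
    fin_cases i <;> fin_cases j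
    · exact iff_of_false (ir _) (by decide)
    · exact iff_of_true h1 (by decide)
    · exact iff_of_false (nq h4).1 (by decide)
    · exact iff_of_false (nq h6).1 (by decide)
    · exact iff_of_false k1 (by decide)
    · exact iff_of_false (ir _) (by decide)
    · exact iff_of_false k2 (by decide)
    · exact iff_of_false (nq h5).1 (by decide)
    · exact iff_of_false (nq h4).2 (by decide)
    · exact iff_of_true h2 (by decide)
    · exact iff_of_false (ir _) (by decide)
    · exact iff_of_true h3 (by decide)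
    · exact iff_of_false (nq h6).2 (by decide)
    · exact iff_of_false (nq h5).2 (by decide)
    · exact iff_of_false k3 (by decide)
    · exact iff_of_false (ir _) (by decide)
  exact hy.free ⟨fun v => (![a, b, c, d] : Fin 4 → ℕ) (f v), fun u v huv => hf1 (hg _ _ huv),
    fun u v => (hq _ _).trans (hf2 u v).symm⟩

/-! ### The reductions -/

theorem wtw_low {S : LG.Structure ℕ} (h : WTw S) {u v : ℕ} (huv : gd S u v) : cp S u v :=
  Or.inl huv

theorem wtw_free1 (hr : O1 r ∨ O2 r ∨ O5 r) {S : LG.Structure ℕ} (h : WTw S) :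
    RFree r (gd S) := by
  have hsub : Subd 0 (cp S) := h.1.sd
  have hht : ∀ a b c, gd S a b → ¬ gd S b c := fun a b c h1 h2 =>
    (h.2 b c h2).1 (h.2 a b h1).2
  refine ⟨fun u hu => hht u u u hu hu, fun u v w h1 h2 => absurd h2 (hht _ _ _ h1), ?_⟩
  rintro ⟨f, hf1, hf2⟩
  rcases hr with ⟨a, b, c, h1, h2⟩ | ⟨a, b, c, d, h1, h2, h3, n1, n2, n3⟩ |
    ⟨a, a', b, b', n1, n2, h1, h2, h3, h4⟩
  · exact hht _ _ _ ((hf2 _ _).2 h1) ((hf2 _ _).2 h2)
  · have k1 := (hf2 _ _).2 h1
    have k2 := (hf2 _ _).2 h2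
    have k3 := (hf2 _ _).2 h3
    exact (h.2 _ _ k1).1 ⟨f b, f c, f d, fun e => n1 (hf1 e), fun e => n2 (hf1 e),
      fun e => n3 (hf1 e), Or.inl k1, Or.inl k2, Or.inl k3⟩
  · have k1 := (hf2 _ _).2 h1
    have k2 := (hf2 _ _).2 h2
    have k3 := (hf2 _ _).2 h3
    have k4 := (hf2 _ _).2 h4
    exact n1 (hf1 (sub_unique hsub (h.2 _ _ k1).1 (h.2 _ _ k3).1 (h.2 _ _ k1).2 (h.2 _ _ k2).2
      (fun e => n2 (hf1 e)) (Or.inl k1) (Or.inl k2) (Or.inl k3) (Or.inl k4)))

theorem wtd_free (hr : O3 r) {S : LG.Structure ℕ} (h : WTd S) : RFree r (gd S) := by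
  have h1 : RFree (fun u v => r v u) (gd (ofr fun u v => gd S v u)) := by
    refine wtw_free1 (Or.inr (Or.inl ?_)) h
    obtain ⟨a, b, c, d, h1, h2, h3, h4⟩ := hr
    exact ⟨a, b, c, d, h1, h2, h3, h4⟩
  rw [gd_ofr] at h1
  refine ⟨h1.irrefl, fun u v w h2 h3 => h1.trans _ _ _ h3 h2, ?_⟩
  rintro ⟨f, hf1, hf2⟩
  exact h1.free ⟨f, hf1, fun u v => hf2 v u⟩

theorem cai_free (hr : O4 r) {S : LG.Structure ℕ} (h : CAI (bs S)) : RFree r (gd S) := by
  have h1 := h.1
  have ir : ∀ u, ¬ gd S u u := fun u hu => by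
    have := h1.irrefl u
    rw [(bs_iff S u u).2 hu] at this
    exact absurd this (by decide)
  have two : ∀ a b c d, gd S a b → gd S c d → gd S a d ∨ gd S c b := by
    intro a b c d h2 h3
    rcases h1.two a b c d ((bs_iff _ _ _).2 h2) ((bs_iff _ _ _).2 h3) with h4 | h4
    · exact Or.inl ((bs_iff _ _ _).1 h4)
    · exact Or.inr ((bs_iff _ _ _).1 h4)
  refine ⟨ir, fun u v w h2 h3 => ?_, ?_⟩
  · rcases two _ _ _ _ h2 h3 with h4 | h4
    · exact h4
    · exact absurd h4 (ir v)
  · rintro ⟨f, hf1, hf2⟩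
    obtain ⟨a, b, c, d, h2, h3, h4, h5⟩ := hr
    rcases two _ _ _ _ ((hf2 _ _).2 h2) ((hf2 _ _).2 h3) with h6 | h6
    · exact h4 ((hf2 _ _).1 h6)
    · exact h5 ((hf2 _ _).1 h6)

theorem comp_rfree (hr : PO r) (h : ¬ Exc r) : Comp (fun S => RFree r (gd S)) := by
  by_cases h1 : O1 r
  · exact fun hV T => red_two (fun T' hT' => hV T' fun S hS =>
      wtw_free1 (Or.inl h1) (hT' S hS)) T
  by_cases h2 : O2 r
  · exact fun hV T => red_two (fun T' hT' => hV T' fun S hS =>
      wtw_free1 (Or.inr (Or.inl h2)) (hT' S hS)) T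
  by_cases h5 : O5 r
  · exact fun hV T => red_two (fun T' hT' => hV T' fun S hS =>
      wtw_free1 (Or.inr (Or.inr h5)) (hT' S hS)) T
  by_cases h3 : O3 r
  · exact fun hV T => red_dual (fun T' hT' => hV T' fun S hS => wtd_free h3 (hT' S hS)) T
  by_cases h4 : O4 r
  · exact fun hV T => red_io (fun T' hT' => hV T' fun S hS => cai_free h4 (hT' S hS)) T
  exact absurd (exc_of hr h1 h2 h3 h4 h5) h

end Pool.Agent.V11227.VB
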